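import Pool.Agent.H444.CL.Stm

/-!
# Project CL (helper444): LINE and MEAS, the logarithmic derivative on the critical line
-/

set_option autoImplicit false

namespace Pool.Agent.H181.CL

open Filter Topology MeasureTheory Complex Set
open scoped ComplexConjugate
open H370 Pool.Agent.H444.CL

/-- the point of the critical line -/
theorem crit_eq (t : ℝ) : (⟨1 / 2, t⟩ : ℂ) = 1 - conj (⟨1 / 2, t⟩ : ℂ) := by
  apply Complex.ext
  · simp
    norm_num
  · simp

/-- the contribution of a zero to the right of the critical line -/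
theorem term_eq (t : ℝ) (ρ : ℂ) (hρ : 1 / 2 < ρ.re) :
    1 / ((⟨1 / 2, t⟩ : ℂ) - st ρ) - 1 / ((⟨1 / 2, t⟩ : ℂ) - ρ) =
      ((2 * ((ρ.re - 1 / 2) / ((ρ.re - 1 / 2) ^ 2 + (t - ρ.im) ^ 2)) : ℝ) : ℂ) := by
  obtain ⟨d, hd⟩ : ∃ d : ℝ, d = ρ.re - 1 / 2 := ⟨_, rfl⟩
  obtain ⟨y, hy⟩ : ∃ y : ℝ, y = t - ρ.im := ⟨_, rfl⟩
  have hd0 : 0 < d := by linarith
  have e1 : (⟨1 / 2, t⟩ : ℂ) - st ρ = (d : ℂ) + y * I := by
    unfold st
    rw [if_pos hρ]
    apply Complex.ext
    · simp [hd]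
      ring
    · simp [hy]
  have e2 : (⟨1 / 2, t⟩ : ℂ) - ρ = -(d : ℂ) + y * I := by
    apply Complex.ext
    · simp [hd]
    · simp [hy]
  rw [e1, e2, ← hd, ← hy]
  have hq : (0 : ℝ) < d ^ 2 + y ^ 2 := by positivity
  have h1 : (d : ℂ) + y * I ≠ 0 := by
    intro h
    have := congrArg Complex.re h
    simp at this
    linarith
  have h2 : -(d : ℂ) + y * I ≠ 0 := by
    intro h
    have := congrArg Complex.re h
    simp at this
    linarith
  have h3 : ((d : ℂ) ^ 2 + (y : ℂ) ^ 2) ≠ 0 := by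
    have : ((d ^ 2 + y ^ 2 : ℝ) : ℂ) ≠ 0 := by exact_mod_cast hq.ne'
    push_cast at this
    exact this
  push_cast
  rw [div_sub_div _ _ h1 h2, mul_div_assoc', div_eq_div_iff (mul_ne_zero h1 h2) h3]
  have hI : (I : ℂ) ^ 2 = -1 := I_sq
  linear_combination (-2 * (d : ℂ) * y ^ 2) * hI

theorem Kt_eq {F : ℂ → ℂ} {T : ℝ} {Q : ℂ → ℂ} (hQ : Fact F T Q) {t : ℝ} (h1 : T / 2 < t)
    (h2 : t < 4 * T) (h0 : F ⟨1 / 2, t⟩ ≠ 0) (hL : Real.log T ≠ 0) :
    Kt F T Q ⟨1 / 2, t⟩ = deriv F ⟨1 / 2, t⟩ / F ⟨1 / 2, t⟩ +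
      ((Real.log T / 2 * rT F T t : ℝ) : ℂ) := by
  classical
  have hs := hQ.2 ⟨1 / 2, t⟩ (by norm_num) h1 h2 h0
  rw [hs]
  unfold Kt
  have e1 : ∑ ρ ∈ ZT F T, (mult F ρ : ℂ) / ((⟨1 / 2, t⟩ : ℂ) - st ρ) =
      ∑ ρ ∈ ZT F T, (mult F ρ : ℂ) / ((⟨1 / 2, t⟩ : ℂ) - ρ) +
      ∑ ρ ∈ ZT F T, (mult F ρ : ℂ) *
        (1 / ((⟨1 / 2, t⟩ : ℂ) - st ρ) - 1 / ((⟨1 / 2, t⟩ : ℂ) - ρ)) := by
    rw [← Finset.sum_add_distrib]
    refine Finset.sum_congr rfl fun ρ _ => ?_
    ring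
  have e2 : ∑ ρ ∈ ZT F T, (mult F ρ : ℂ) *
        (1 / ((⟨1 / 2, t⟩ : ℂ) - st ρ) - 1 / ((⟨1 / 2, t⟩ : ℂ) - ρ)) =
      ∑ ρ ∈ RT F T, (mult F ρ : ℂ) *
        (1 / ((⟨1 / 2, t⟩ : ℂ) - st ρ) - 1 / ((⟨1 / 2, t⟩ : ℂ) - ρ)) := by
    unfold RT
    rw [Finset.sum_filter]
    refine Finset.sum_congr rfl fun ρ _ => ?_
    split_ifs with h
    · rfl
    · unfold st
      rw [if_neg h, sub_self, mul_zero]
  have e3 : ∑ ρ ∈ RT F T, (mult F ρ : ℂ) *
        (1 / ((⟨1 / 2, t⟩ : ℂ) - st ρ) - 1 / ((⟨1 / 2, t⟩ : ℂ) - ρ)) =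
      ((Real.log T / 2 * rT F T t : ℝ) : ℂ) := by
    have e4 : Real.log T / 2 * rT F T t = ∑ ρ ∈ RT F T, (mult F ρ : ℝ) *
        (2 * ((ρ.re - 1 / 2) / ((ρ.re - 1 / 2) ^ 2 + (t - ρ.im) ^ 2))) := by
      unfold rT
      rw [← mul_assoc]
      have e5 : Real.log T / 2 * (4 / Real.log T) = 2 := by
        field_simp
        norm_num
      rw [e5, Finset.mul_sum]
      refine Finset.sum_congr rfl fun ρ _ => ?_
      ring
    rw [e4, ofReal_sum]
    refine Finset.sum_congr rfl fun ρ hρ => ?_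
    have hρ' : 1 / 2 < ρ.re := by
      unfold RT at hρ
      exact (Finset.mem_filter.1 hρ).2
    rw [term_eq t ρ hρ', ofReal_mul (mult F ρ : ℝ), ofReal_natCast]
  rw [e1, e2, e3]
  ring

theorem t_LINE : S_LINE := by
  intro F hF
  obtain ⟨C, hC⟩ := hF.left
  have hl4 : 0 < Real.log 4 := Real.log_pos (by norm_num)
  refine ⟨|C| + Real.log 4, 4, by positivity, ?_⟩
  intro T hT4 Q hQ t ht1 ht2 h0
  have hL : 0 < Real.log T := Real.log_pos (by linarith)
  have hK := Kt_eq hQ (by linarith) (by linarith) h0 hL.ne'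
  obtain ⟨w, hw⟩ : ∃ w : ℂ, w = deriv F ⟨1 / 2, t⟩ / F ⟨1 / 2, t⟩ := ⟨_, rfl⟩
  rw [← hw] at hK
  have hH : Ht F T Q ⟨1 / 2, t⟩ = 1 + (2 / Real.log T : ℝ) * w + (rT F T t : ℂ) := by
    unfold Ht
    rw [hK, mul_add, ← add_assoc, ← ofReal_mul]
    have e : 2 / Real.log T * (Real.log T / 2 * rT F T t) = rT F T t := by field_simp
    rw [e]
  constructor
  · rw [hH]
    unfold hT
    rw [← hw, add_im, add_im, one_im, ofReal_im, im_ofReal_mul]
    ring
  · have hre : (Ht F T Q ⟨1 / 2, t⟩).re - rT F T t = 1 + 2 / Real.log T * w.re := by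
      rw [hH, add_re, add_re, one_re, ofReal_re, re_ofReal_mul]
      ring
    rw [hre]
    have h1 := hC ⟨1 / 2, t⟩ (by norm_num) (by norm_num) (by show (1 : ℝ) ≤ t; linarith) h0
    rw [← crit_eq t, ← hw] at h1
    have h2 : |2 * w.re + Real.log t| ≤ C := by
      have e : w + (Real.log t : ℂ) + conj w = ((2 * w.re + Real.log t : ℝ) : ℂ) := by
        apply Complex.ext
        · simp
          ring
        · simp
      rw [show ((⟨1 / 2, t⟩ : ℂ)).im = t from rfl, e, norm_real, Real.norm_eq_abs] at h1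
      exact h1
    have ht0 : 0 < t := by linarith
    have h3 : |Real.log T - Real.log t| ≤ Real.log 4 := by
      rw [abs_le]
      constructor
      · have h4 : Real.log t ≤ Real.log (4 * T) := Real.log_le_log ht0 (by linarith)
        rw [Real.log_mul (by norm_num) (by linarith)] at h4
        linarith
      · have h4 : Real.log T ≤ Real.log (4 * t) := Real.log_le_log (by linarith) (by linarith)
        rw [Real.log_mul (by norm_num) (by linarith)] at h4
        linarith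
    have e6 : 1 + 2 / Real.log T * w.re =
        ((2 * w.re + Real.log t) + (Real.log T - Real.log t)) / Real.log T := by
      field_simp
      ring
    rw [e6, abs_div, abs_of_pos hL]
    apply div_le_div_of_nonneg_right _ hL.le
    exact (abs_add_le _ _).trans (add_le_add (h2.trans (le_abs_self C)) h3)

theorem t_MEAS : S_MEAS := by
  intro F hF
  refine ⟨?_, ?_, ?_⟩
  · intro T
    unfold rT
    refine continuous_const.mul (continuous_finsetSum _ fun ρ hρ => continuous_const.mul ?_)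
    have hρ' : 1 / 2 < ρ.re := by
      unfold RT at hρ
      exact (Finset.mem_filter.1 hρ).2
    refine continuous_const.div (by fun_prop) fun t => ?_
    have h1 : 0 < (ρ.re - 1 / 2) ^ 2 := by
      have : 0 < ρ.re - 1 / 2 := by linarith
      positivity
    have h2 : 0 ≤ (t - ρ.im) ^ 2 := sq_nonneg _
    linarith
  · intro T t hT1
    unfold rT
    refine mul_nonneg (div_nonneg (by norm_num) (Real.log_nonneg hT1))
      (Finset.sum_nonneg fun ρ hρ => mul_nonneg (Nat.cast_nonneg _) ?_)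
    have hρ' : 1 / 2 < ρ.re := by
      unfold RT at hρ
      exact (Finset.mem_filter.1 hρ).2
    exact div_nonneg (by linarith) (by positivity)
  · intro T hT1
    have hline : Continuous (fun t : ℝ => (⟨1 / 2, t⟩ : ℂ)) := by
      have e : (fun t : ℝ => (⟨1 / 2, t⟩ : ℂ)) = fun t : ℝ => (1 / 2 : ℂ) + t * I := by
        funext t
        apply Complex.ext
        · simp
        · simp
      rw [e]
      fun_prop
    have h1 : ContinuousOn (fun t : ℝ => F ⟨1 / 2, t⟩) (Ioc T (2 * T)) := fun t ht =>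
      ((hF.an ⟨1 / 2, t⟩ (by show 0 < t; linarith [ht.1])).continuousAt.comp
        (f := fun t : ℝ => (⟨1 / 2, t⟩ : ℂ)) hline.continuousAt).continuousWithinAt
    have h2 : ContinuousOn (fun t : ℝ => deriv F ⟨1 / 2, t⟩) (Ioc T (2 * T)) := fun t ht =>
      ((hF.an ⟨1 / 2, t⟩ (by show 0 < t; linarith [ht.1])).deriv.continuousAt.comp
        (f := fun t : ℝ => (⟨1 / 2, t⟩ : ℂ)) hline.continuousAt).continuousWithinAt
    have h3 := (h2.aemeasurable measurableSet_Ioc (μ := volume)).div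
      (h1.aemeasurable measurableSet_Ioc)
    exact (measurable_im.comp_aemeasurable h3).const_mul _

end Pool.Agent.H181.CL
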